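import Mathlib
import Pool.Agent.Helper415.HaarDefsMulti
import Pool.Agent.Helper415.HB14

/-!
For `d ≥ 2` and `1 < p < ∞` the multivariate Haar basis `𝓗_p^d` is an almost greedy basis of
`L_p([0,1]^d)` with respect to the Weak Chebyshev Greedy Algorithm if and only if `p = 2`.

Sketch. Let `r_n` be the `n`-th Rademacher function. On the half `x₀ < 1/2` of the cube put
`S = ∑_{j ≤ L} X_j`, `X_j = r_{1+gj}(x₀) r_{g(L-j)}(x₁)`: a combination of `(L+1) 2^{gL}` Haar
products with equal coefficients (all supports have the same volume). The `X_j` behave like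
independent signs, so `‖S‖_p` is of order `(L+1)^{1/2}`. On the half `x₀ ≥ 1/2` put the block
`A r_ν(x₀)`, a combination of `2^{ν-1}` disjointly supported Haar functions.

For `p < 2` take `m = (L+1) 2^{gL}` and `2^{ν-1} > C₁ m`. The amplitude `A` is such that the dual
coefficients of the block dominate those of `S`, but `‖block‖_p` is small compared to `‖S‖_p`.
WCGA(1/2) can pick elements of the block during the first `⌈C₁ m⌉` steps; the remainder then still
contains all of `S`, while `σ_m ≤ ‖block‖_p`.

For `p > 2` take `m = 2^{ν-1}` and `(L+1) 2^{gL} > 2 C₁ m`. Now `A` is such that the dual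
coefficients of `S` (and of `S` without its first shapes) dominate those of the block up to a
constant, but `‖S‖_p` is small compared to `‖block‖_p`. WCGA(t), for some `t` depending on `p`, can
pick elements of `S` shape by shape during the first `⌈C₁ m⌉` steps; the remainder then still
contains the block, while `σ_m ≤ ‖S‖_p`.

For `p = 2` the system is orthonormal.
-/

set_option autoImplicit false

open MeasureTheory
open scoped ENNReal

namespace Pool.Agent.Results.MP_4a278a_an.HaarMultiAlmostGreedy

open Pool.Agent.Helper415.TG Pool.Agent.Helper415.HaarD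

/-- **Main result.** For `d ≥ 2` and `1 < p < ∞` the multivariate Haar basis `𝓗_p^d` of
`L_p([0,1]^d)` is almost greedy with respect to the WCGA if and only if `p = 2`. -/
theorem result (d : ℕ) (hd : 2 ≤ d) (p : ℝ≥0∞) [Fact (1 ≤ p)] (hp1 : 1 < p) (hptop : p ≠ ⊤) :
    AlmostGreedyBasis normingF (HaarMulti d p) ↔ p = 2 :=
  Pool.Agent.Helper415.HB.haar_multi d hd p hp1 hptop

end Pool.Agent.Results.MP_4a278a_an.HaarMultiAlmostGreedy
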